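import Pool.Agent.H31.BJ1

set_option autoImplicit false

open Pool.Agent.H31

theorem Pool.Agent.Results.MP_f38362_gt.Families.result :
    ∃ (X : Type) (_ : TopologicalSpace X), T35Space X ∧
      (∀ σ : List (Set X) → Set (Set X),
        (∀ (U : ℕ → Set X) (n : ℕ), (∀ k < n, U k ∈ σ ((List.range k).map U)) →
          (∀ V ∈ σ ((List.range n).map U), IsOpen V) ∧ Dense (⋃₀ σ ((List.range n).map U))) →
        ∃ U : ℕ → Set X, (∀ n, U n ∈ σ ((List.range n).map U)) ∧ Dense (⋃ n, U n)) ∧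
      (∀ τ : List (Set (Set X)) → Set X,
        (∀ (l : List (Set (Set X))) (𝒰 : Set (Set X)),
          (∀ 𝒱 ∈ l, (∀ V ∈ 𝒱, IsOpen V) ∧ Dense (⋃₀ 𝒱)) →
          (∀ V ∈ 𝒰, IsOpen V) ∧ Dense (⋃₀ 𝒰) → τ (l ++ [𝒰]) ∈ 𝒰) →
        ∃ 𝒰 : ℕ → Set (Set X), (∀ n, (∀ V ∈ 𝒰 n, IsOpen V) ∧ Dense (⋃₀ 𝒰 n)) ∧
          ¬ Dense (⋃ n, τ ((List.range (n + 1)).map 𝒰))) :=
  ⟨BJ.X, inferInstance, inferInstance, BJ.one, BJ.two⟩
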