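import Pool.Agent.H31.BJ2

set_option autoImplicit false

open Pool.Agent.H31

theorem Pool.Agent.Results.MP_f38362_gt.OpenPoint.result :
    ∃ (X : Type) (_ : TopologicalSpace X), T2Space X ∧
      (∀ σ : List X → Set X,
        (∀ (x : ℕ → X) (n : ℕ), (∀ k < n, x k ∈ σ ((List.range k).map x)) →
          IsOpen (σ ((List.range n).map x)) ∧ (σ ((List.range n).map x)).Nonempty) →
        ∃ x : ℕ → X, (∀ n, x n ∈ σ ((List.range n).map x)) ∧ ¬ Dense (Set.range x)) ∧
      (∀ τ : List (Set X) → X,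
        (∀ (l : List (Set X)) (U : Set X), (∀ V ∈ l, IsOpen V ∧ V.Nonempty) →
          IsOpen U → U.Nonempty → τ (l ++ [U]) ∈ U) →
        ∃ U : ℕ → Set X, (∀ n, IsOpen (U n) ∧ (U n).Nonempty) ∧
          Dense (Set.range fun n => τ ((List.range (n + 1)).map U))) :=
  ⟨BJ.Y, inferInstance, inferInstance, BJ.op_one, BJ.op_two⟩
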